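import Pool.Agent.H892.LEC.FewP

/-!
# (p,1)-total labellings when the part near the vertices of large degree is sparse

A common generalisation of the theorem for graphs of maximum average degree at most
`c * D / log D` (`T` = all vertices) and of the case of few vertices of large degree. The main
tools (`Sparse.main_p` and the theorems `T_S`, `T_D`) are those of the project of helper162 in the
starting repository.
-/

set_option autoImplicit false

namespace Pool.Agent.Results.MP_b8729f_co.SparseLargeDegrees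

/-- There is a real number `K` such that for every `ε > 0` there is `n₀` with the following
property. Let `p ≥ 1`, let `G` be a finite simple graph with `n` vertices and all degrees at most
`D`, let `T` be a set of vertices, and let `a`, `s` be real numbers with
`s ≥ K (√(D log n) + log n)`, or with `n ≥ n₀` and `s ≥ ε √(n log n)`. Suppose

* `34 a (1 + log D) ≤ D`, `4 p a ≤ D`, and every subset `X` of `T` spans at most `a |X| / 2` edges
  (at most `a |X|` ordered pairs of adjacent vertices);
* every vertex outside `T` has at most `a / 2` neighbours in `T` and at most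
  `D - p a - 2 p - s` neighbours outside `T`.

Then from any lists of at least `D + 2 p - 1` natural numbers at the vertices and at the edges one
can choose a (p,1)-total labelling of `G`. (For the lists `{0, ..., D + 2 p - 2}` this is a
labelling of span `D + 2 p - 2`, one less than conjectured.) -/
theorem result : ∃ K : ℝ, ∀ ε : ℝ, 0 < ε → ∃ n₀ : ℕ, ∀ (p : ℕ), 1 ≤ p → ∀ (V : Type) [Fintype V]
    (G : SimpleGraph V) (D : ℕ) (T : Finset V) (a s : ℝ),
    (K * (Real.sqrt (D * Real.log (Fintype.card V)) + Real.log (Fintype.card V)) ≤ s ∨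
      n₀ ≤ Fintype.card V ∧ ε * Real.sqrt (Fintype.card V * Real.log (Fintype.card V)) ≤ s) →
    34 * a * (1 + Real.log D) ≤ D → 4 * p * a ≤ D →
    (∀ v, (G.neighborSet v).ncard ≤ D) →
    (∀ X : Finset V, X ⊆ T →
      ({e : V × V | e.1 ∈ X ∧ e.2 ∈ X ∧ G.Adj e.1 e.2}.ncard : ℝ) ≤ a * X.card) →
    (∀ v ∉ T, ({w : V | w ∈ T ∧ G.Adj v w}.ncard : ℝ) ≤ a / 2) →
    (∀ v ∉ T, ({w : V | w ∉ T ∧ G.Adj v w}.ncard : ℝ) ≤ D - p * a - 2 * p - s) →
    ∀ (M : V → Finset ℕ) (L : Sym2 V → Finset ℕ), (∀ v, D + 2 * p - 1 ≤ (M v).card) →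
      (∀ e ∈ G.edgeSet, D + 2 * p - 1 ≤ (L e).card) →
      ∃ (fV : V → ℕ) (fE : Sym2 V → ℕ),
        (∀ v : V, fV v ∈ M v) ∧
        (∀ e ∈ G.edgeSet, fE e ∈ L e) ∧
        (∀ u v : V, G.Adj u v → fV u ≠ fV v) ∧
        (∀ u v : V, G.Adj u v → (p : ℤ) ≤ |(fV u : ℤ) - (fE s(u, v) : ℤ)|) ∧
        (∀ u v w : V, G.Adj u v → G.Adj u w → v ≠ w → fE s(u, v) ≠ fE s(u, w)) :=
  Pool.Agent.H892.LEC.mainP

end Pool.Agent.Results.MP_b8729f_co.SparseLargeDegrees
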